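import Pool.Agent.helper82.T6.SpecW

set_option autoImplicit false

/-! Row WPC of project T6: the count for one pair and one class. -/

namespace Pool.Agent.T6

open Finset Pool.Agent.helper3.FT Pool.Agent.T5

theorem WPC_e_add (a b : ℝ) : e (a + b) = e a * e b := by
  unfold e
  rw [← Complex.exp_add]
  congr 1
  push_cast
  ring

theorem WPC_e_norm (a : ℝ) : ‖e a‖ = 1 := by
  unfold e
  have h : 2 * (Real.pi : ℂ) * Complex.I * a = ((2 * Real.pi * a : ℝ) : ℂ) * Complex.I := by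
    push_cast
    ring
  rw [h]
  exact Complex.norm_exp_ofReal_mul_I _

theorem WPC_tw_nonneg (L : ℕ) (m : ℤ) : 0 ≤ tw L m := le_max_left _ _

theorem WPC_tw_le {L : ℕ} (hL : 1 ≤ L) (m : ℤ) : tw L m ≤ 3 := by
  have hL' : (1 : ℝ) ≤ L := by exact_mod_cast hL
  unfold tw
  refine max_le (by norm_num) ?_
  rw [div_le_iff₀ (by linarith)]
  have := abs_nonneg (m : ℝ)
  linarith

theorem WPC_tw_ge {L : ℕ} (hL : 1 ≤ L) {m : ℤ} (hm : |(m : ℝ)| ≤ L) : 1 ≤ tw L m := by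
  have hL' : (1 : ℝ) ≤ L := by exact_mod_cast hL
  unfold tw
  refine le_trans ?_ (le_max_right _ _)
  rw [le_div_iff₀ (by linarith)]
  linarith

/-- the sum of the weights -/
theorem WPC_sum {L L' : ℕ} (hL : 1 ≤ L) (hL' : 1 ≤ L') :
    ∑ i ∈ Icc (-(2 * L : ℤ)) (2 * L) ×ˢ Icc (-(2 * L' : ℤ)) (2 * L'), tw L i.1 * tw L' i.2 ≤
      225 * ((L : ℝ) * L') := by
  have h1 : ∀ i ∈ Icc (-(2 * L : ℤ)) (2 * L) ×ˢ Icc (-(2 * L' : ℤ)) (2 * L'),
      tw L i.1 * tw L' i.2 ≤ 9 := by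
    intro i _
    calc tw L i.1 * tw L' i.2 ≤ 3 * 3 :=
          mul_le_mul (WPC_tw_le hL _) (WPC_tw_le hL' _) (WPC_tw_nonneg _ _) (by norm_num)
      _ = 9 := by norm_num
  refine (sum_le_card_nsmul _ _ _ h1).trans ?_
  rw [nsmul_eq_mul, card_product, Int.card_Icc, Int.card_Icc]
  have h2 : (2 * (L : ℤ) + 1 - -(2 * (L : ℤ))).toNat ≤ 5 * L := by omega
  have h3 : (2 * (L' : ℤ) + 1 - -(2 * (L' : ℤ))).toNat ≤ 5 * L' := by omega
  have h4 := Nat.mul_le_mul h2 h3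
  have h5 : ((((2 * (L : ℤ) + 1 - -(2 * (L : ℤ))).toNat * (2 * (L' : ℤ) + 1 - -(2 * (L' : ℤ))).toNat : ℕ)) : ℝ) ≤
      ((5 * L * (5 * L') : ℕ) : ℝ) := by exact_mod_cast h4
  refine (mul_le_mul_of_nonneg_right h5 (by norm_num)).trans (le_of_eq ?_)
  push_cast
  ring

/-- the coordinates are small -/
theorem WPC_small {E m₀ m' m : ℤ} {L : ℕ} (hE : 0 < E) (h0 : 0 ≤ m₀) (h1 : m₀ < E) (hm : m = m₀ + E * m')
    (h : |(m : ℝ)| + E ≤ E * (L : ℝ)) : |(m' : ℝ)| ≤ L := by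
  have h2 : |m| + E ≤ E * L := by exact_mod_cast h
  have h3 : |m'| ≤ (L : ℤ) := by
    rw [abs_le]
    have h4 := abs_le.1 (show |m| ≤ E * L - E by linarith)
    constructor
    · by_contra hc
      push Not at hc
      nlinarith
    · by_contra hc
      push Not at hc
      nlinarith
  exact_mod_cast h3

theorem WPC (hWCL : WCL_stmt) (hWFJ : WFJ_stmt) (hWWY : WWY_stmt) : WPC_stmt := by
  classical
  obtain ⟨C₀, hC₀, hW⟩ := hWWY
  refine ⟨450 + 4 * √C₀, by have := Real.sqrt_nonneg C₀; linarith, ?_⟩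
  intro n k er es hn hk her hes hnk hrs hnkr
  obtain ⟨α, β, γ, hres, hcl⟩ := hWCL n k er es hn hk her hes hnk hrs hnkr
  refine ⟨α, β, γ, hres, ?_⟩
  intro x L L' T z₀ V F hL hL' hT hV hTV hF
  obtain ⟨m₀, g₀, c₃, c₄, c₅, hm0, hm1, hg0, hg1, ht⟩ := hcl x
  have hn0 : (0 : ℝ) < n := by exact_mod_cast hn
  have hk0 : (0 : ℝ) < k := by exact_mod_cast hk
  have her0 : (0 : ℝ) < er := by exact_mod_cast her
  have hes0 : (0 : ℝ) < es := by exact_mod_cast hes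
  have hT0 : (0 : ℝ) < T := by exact_mod_cast hT
  have hT1 : (1 : ℝ) ≤ T := by exact_mod_cast hT
  set Q : ℝ := (n : ℝ) ^ 3 * k * es * (er : ℝ) ^ 2 with hQ
  have hQ0 : 0 < Q := by positivity
  have hE0 : (0 : ℤ) < er * es := by positivity
  have ht' : ∀ t : Tpl, ∃ m' g' z' : ℤ, t ∈ F → t.2.1 = m₀ + er * es * m' ∧
      t.2.2.1 = g₀ + er * es * g' ∧ (t.2.2.2 : ℝ) / Q =
          (es : ℝ) / ((n : ℝ) ^ 3 * k) * (α * m' ^ 2 + β * m' * g' + γ * g' ^ 2) + c₃ * m' + c₄ * g' + c₅ + z' := by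
    intro t
    by_cases h : t ∈ F
    · obtain ⟨a1, a2, a3, -⟩ := hF t h
      obtain ⟨m', g', e1, e2, z', e3⟩ := ht t a1 a2 a3
      exact ⟨m', g', z', fun _ => ⟨e1, e2, e3⟩⟩
    · exact ⟨0, 0, 0, fun h' => absurd h' h⟩
  choose mm gg zz hh using ht'
  have hQV : 4 * T * V ≤ Q := hTV
  have hVQ : V < Q := by nlinarith
  -- injectivity
  have hinj : Set.InjOn (fun t : Tpl => (mm t, gg t)) (F : Set Tpl) := by
    intro t htF t' htF' he
    have he1 : mm t = mm t' := congrArg Prod.fst he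
    have he2 : gg t = gg t' := congrArg Prod.snd he
    obtain ⟨b1, b2, b3⟩ := hh t htF
    obtain ⟨b1', b2', b3'⟩ := hh t' htF'
    obtain ⟨-, a2, -, -, -, a3, a4⟩ := hF t htF
    obtain ⟨-, a2', -, -, -, a3', a4'⟩ := hF t' htF'
    have h1 : ((t.2.2.2 : ℝ) - t'.2.2.2) / Q = ((zz t - zz t' : ℤ) : ℝ) := by
      rw [sub_div, b3, b3', he1, he2]
      push_cast
      ring
    have h2 : |((zz t - zz t' : ℤ) : ℝ)| < 1 := by
      rw [← h1, abs_div, abs_of_pos hQ0, div_lt_one hQ0, abs_lt]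
      constructor <;> linarith
    have h3 : zz t - zz t' = 0 := by
      have : |zz t - zz t'| < 1 := by exact_mod_cast h2
      exact Int.abs_lt_one_iff.1 this
    rw [h3, Int.cast_zero, div_eq_zero_iff] at h1
    have h4 : (t.2.2.2 : ℝ) = t'.2.2.2 := by
      rcases h1 with h1 | h1
      · linarith
      · exact absurd h1 hQ0.ne'
    have h5 : t.2.2.2 = t'.2.2.2 := by exact_mod_cast h4
    refine Prod.ext (a2.trans a2'.symm) (Prod.ext ?_ (Prod.ext ?_ h5))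
    · rw [b1, b1', he1]
    · rw [b2, b2', he2]
  -- the index set
  set s := Icc (-(2 * L : ℤ)) (2 * L) ×ˢ Icc (-(2 * L' : ℤ)) (2 * L') with hs
  set X : ℤ × ℤ → ℝ := fun i => (es : ℝ) / ((n : ℝ) ^ 3 * k) * (α * i.1 ^ 2 + β * i.1 * i.2 + γ * i.2 ^ 2) +
    c₃ * i.1 + c₄ * i.2 + c₅ - (z₀ + V / 2) / Q with hX
  set w : ℤ × ℤ → ℝ := fun i => tw L i.1 * tw L' i.2 with hw
  have hw0 : ∀ i, 0 ≤ w i := fun i => mul_nonneg (WPC_tw_nonneg _ _) (WPC_tw_nonneg _ _)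
  have hsmall : ∀ t ∈ F, |(mm t : ℝ)| ≤ L ∧ |(gg t : ℝ)| ≤ L' := by
    intro t htF
    obtain ⟨b1, b2, -⟩ := hh t htF
    obtain ⟨-, -, -, a1, a2, -, -⟩ := hF t htF
    exact ⟨WPC_small hE0 hm0 hm1 b1 (by push_cast; exact a1), WPC_small hE0 hg0 hg1 b2 (by push_cast; exact a2)⟩
  have hcard : (F.card : ℝ) ≤ ∑ i ∈ s.filter (fun i => nd (X i) * (8 * T) ≤ 1), w i := by
    rw [← card_image_of_injOn hinj]
    have h1 : F.image (fun t : Tpl => (mm t, gg t)) ⊆ s.filter (fun i => nd (X i) * (8 * T) ≤ 1) := by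
      intro i hi
      obtain ⟨t, htF, rfl⟩ := mem_image.1 hi
      obtain ⟨b1, b2, b3⟩ := hh t htF
      obtain ⟨-, -, -, -, -, a3, a4⟩ := hF t htF
      obtain ⟨s1, s2⟩ := hsmall t htF
      have s1' : |mm t| ≤ (L : ℤ) := by exact_mod_cast s1
      have s2' : |gg t| ≤ (L' : ℤ) := by exact_mod_cast s2
      rw [abs_le] at s1' s2'
      refine mem_filter.2 ⟨mem_product.2 ⟨mem_Icc.2 ⟨by simp only; omega, by simp only; omega⟩,
        mem_Icc.2 ⟨by simp only; omega, by simp only; omega⟩⟩, ?_⟩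
      have h2 : X (mm t, gg t) - ((-zz t : ℤ) : ℝ) = ((t.2.2.2 : ℝ) - z₀ - V / 2) / Q := by
        have h3 : ((t.2.2.2 : ℝ) - z₀ - V / 2) / Q = (t.2.2.2 : ℝ) / Q - (z₀ + V / 2) / Q := by
          ring
        rw [h3, b3]
        simp only [hX]
        push_cast
        ring
      have h4 : nd (X (mm t, gg t)) ≤ (V / 2) / Q := by
        unfold nd
        refine (round_le _ (-zz t)).trans ?_
        rw [h2, abs_div, abs_of_pos hQ0]
        refine div_le_div_of_nonneg_right ?_ hQ0.le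
        rw [abs_le]
        constructor <;> linarith
      calc nd (X (mm t, gg t)) * (8 * T) ≤ (V / 2) / Q * (8 * T) :=
            mul_le_mul_of_nonneg_right h4 (by positivity)
        _ = (4 * T * V) / Q := by ring
        _ ≤ 1 := by rw [div_le_one hQ0]; exact hQV
    have h5 : ((F.image (fun t : Tpl => (mm t, gg t))).card : ℝ) ≤
        ∑ i ∈ F.image (fun t : Tpl => (mm t, gg t)), w i := by
      rw [← nsmul_one, ← sum_const]
      refine sum_le_sum fun i hi => ?_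
      obtain ⟨t, htF, rfl⟩ := mem_image.1 hi
      obtain ⟨s1, s2⟩ := hsmall t htF
      have r1 := WPC_tw_ge hL s1
      have r2 := WPC_tw_ge hL' s2
      show (1 : ℝ) ≤ tw L (mm t) * tw L' (gg t)
      nlinarith
    exact h5.trans (sum_le_sum_of_subset_of_nonneg h1 fun i _ _ => hw0 i)
  have hfj := hWFJ s w X T hT (fun i _ => hw0 i)
  -- the exponential sums
  have hts : ∀ h : ℕ, ‖∑ i ∈ s, (w i : ℂ) * e (h * X i)‖ ≤ √C₀ * (√((L : ℝ) * L') *
      √((nearPts L L' ((h * es : ℕ) * α / ((n : ℝ) ^ 3 * k)) ((h * es : ℕ) * β / ((n : ℝ) ^ 3 * k))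
          ((h * es : ℕ) * γ / ((n : ℝ) ^ 3 * k))).card : ℝ)) := by
    intro h
    set c : Fin 5 → ℝ := ![((h * es : ℕ) : ℝ) * α / ((n : ℝ) ^ 3 * k),
      ((h * es : ℕ) : ℝ) * β / ((n : ℝ) ^ 3 * k), ((h * es : ℕ) : ℝ) * γ / ((n : ℝ) ^ 3 * k),
      h * c₃, h * c₄] with hc
    have hc0 : c 0 = ((h * es : ℕ) : ℝ) * α / ((n : ℝ) ^ 3 * k) := rfl
    have hc1 : c 1 = ((h * es : ℕ) : ℝ) * β / ((n : ℝ) ^ 3 * k) := rfl
    have hc2 : c 2 = ((h * es : ℕ) : ℝ) * γ / ((n : ℝ) ^ 3 * k) := rfl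
    have hc3 : c 3 = h * c₃ := rfl
    have hc4 : c 4 = h * c₄ := rfl
    have h1 : ∑ i ∈ s, (w i : ℂ) * e (h * X i) = TS L L' c * e (h * (c₅ - (z₀ + V / 2) / Q)) := by
      unfold TS
      rw [hs, sum_product, sum_mul]
      refine sum_congr rfl fun m _ => ?_
      rw [sum_mul]
      refine sum_congr rfl fun g _ => ?_
      have h2 : (h : ℝ) * X (m, g) = (c 0 * m ^ 2 + c 1 * m * g + c 2 * g ^ 2 + c 3 * m + c 4 * g) +
          h * (c₅ - (z₀ + V / 2) / Q) := by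
        rw [hc0, hc1, hc2, hc3, hc4]
        simp only [hX]
        push_cast
        ring
      rw [h2, WPC_e_add]
      simp only [hw]
      ring
    rw [h1, norm_mul, WPC_e_norm, mul_one]
    have h3 := hW L L' c hL hL'
    rw [hc0, hc1, hc2] at h3
    have hLL : (0 : ℝ) ≤ (L : ℝ) * L' := by positivity
    refine abs_le_of_sq_le_sq' ?_ (by positivity) |>.2
    rw [mul_pow, mul_pow, Real.sq_sqrt (by linarith), Real.sq_sqrt hLL, Real.sq_sqrt (by positivity)]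
    refine h3.trans (le_of_eq ?_)
    ring
  have hsum := WPC_sum hL hL'
  have h1 : ∑ h ∈ Ico 1 T, ‖∑ i ∈ s, (w i : ℂ) * e (h * X i)‖ ≤ √C₀ * (√((L : ℝ) * L') *
      ∑ h ∈ Ico 1 T, √((nearPts L L' ((h * es : ℕ) * α / ((n : ℝ) ^ 3 * k)) ((h * es : ℕ) * β / ((n : ℝ) ^ 3 * k))
          ((h * es : ℕ) * γ / ((n : ℝ) ^ 3 * k))).card : ℝ)) := by
    rw [mul_sum, mul_sum]
    exact sum_le_sum fun h _ => hts h
  set S := ∑ h ∈ Ico 1 T, √((nearPts L L' ((h * es : ℕ) * α / ((n : ℝ) ^ 3 * k)) ((h * es : ℕ) * β / ((n : ℝ) ^ 3 * k))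
          ((h * es : ℕ) * γ / ((n : ℝ) ^ 3 * k))).card : ℝ) with hS
  have hS0 : 0 ≤ S := sum_nonneg fun _ _ => Real.sqrt_nonneg _
  have h2 : (F.card : ℝ) ≤ 2 / T * (225 * ((L : ℝ) * L') + 2 * (√C₀ * (√((L : ℝ) * L') * S))) := by
    refine hcard.trans (hfj.trans ?_)
    refine mul_le_mul_of_nonneg_left ?_ (by positivity)
    exact add_le_add hsum (mul_le_mul_of_nonneg_left h1 (by norm_num))
  refine h2.trans ?_
  rw [div_mul_eq_mul_div, div_mul_eq_mul_div]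
  refine div_le_div_of_nonneg_right ?_ hT0.le
  have h3 : 0 ≤ √C₀ := Real.sqrt_nonneg _
  have h4 : 0 ≤ √((L : ℝ) * L') * S := mul_nonneg (Real.sqrt_nonneg _) hS0
  have h5 : (0 : ℝ) ≤ (L : ℝ) * L' := by positivity
  nlinarith [mul_nonneg h3 h5]

end Pool.Agent.T6
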