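import Pool.Agent.helper8.T6.SpecC2

set_option autoImplicit false

/-! Row TGL of project T6: Chinese remainder theorem for two classes. -/

namespace Pool.Agent.T6

open Finset Pool.Agent.T5

theorem TGL_crt {a b : ℕ} (h : Nat.Coprime a b) (x y : ℤ) :
    ∃ z : ℤ, (a : ℤ) ∣ z - x ∧ (b : ℤ) ∣ z - y := by
  obtain ⟨u, v, huv⟩ := Nat.isCoprime_iff_coprime.2 h
  refine ⟨x + a * u * (y - x), ⟨u * (y - x), by ring⟩, ⟨-(v * (y - x)), ?_⟩⟩
  have h1 : (a : ℤ) * u = 1 - b * v := by linarith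
  rw [h1]
  ring

theorem TGL_mul {a b : ℕ} (h : Nat.Coprime a b) {x : ℤ} (h1 : (a : ℤ) ∣ x) (h2 : (b : ℤ) ∣ x) :
    ((a * b : ℕ) : ℤ) ∣ x := by
  push_cast
  exact (Nat.isCoprime_iff_coprime.2 h).mul_dvd h1 h2

/-- the part of `e` composed of the primes with the property `P` -/
def TGL_f (P : ℕ → Prop) [DecidablePred P] (e : ℕ) : ℕ :=
  ∏ p ∈ e.primeFactors.filter P, p ^ (e.factorization p)

theorem TGL_f_dvd (P : ℕ → Prop) [DecidablePred P] {e : ℕ} (he : 1 ≤ e) : TGL_f P e ∣ e := by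
  have h1 : ∏ p ∈ e.primeFactors, p ^ (e.factorization p) = e := by
    have h2 := Nat.prod_factorization_pow_eq_self (n := e) (by omega)
    exact h2
  have h3 : TGL_f P e ∣ ∏ p ∈ e.primeFactors, p ^ (e.factorization p) :=
    prod_dvd_prod_of_subset _ _ _ (filter_subset _ _)
  rwa [h1] at h3

theorem TGL_f_mul (P : ℕ → Prop) [DecidablePred P] {a b : ℕ} (ha : 1 ≤ a) (hb : 1 ≤ b)
    (h : Nat.Coprime a b) : TGL_f P (a * b) = TGL_f P a * TGL_f P b := by
  unfold TGL_f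
  rw [h.primeFactors_mul, filter_union, prod_union
    (disjoint_filter_filter h.disjoint_primeFactors)]
  have h1 : (a * b).factorization = a.factorization + b.factorization :=
    Nat.factorization_mul (by omega) (by omega)
  congr 1
  · refine prod_congr rfl fun p hp => ?_
    have hp' := Nat.mem_primeFactors.1 (mem_filter.1 hp).1
    have h2 : b.factorization p = 0 := by
      refine Nat.factorization_eq_zero_of_not_dvd fun h3 => ?_
      exact Nat.Prime.not_coprime_iff_dvd.2 ⟨p, hp'.1, hp'.2.1, h3⟩ h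
    rw [h1, Finsupp.add_apply, h2, add_zero]
  · refine prod_congr rfl fun p hp => ?_
    have hp' := Nat.mem_primeFactors.1 (mem_filter.1 hp).1
    have h2 : a.factorization p = 0 := by
      refine Nat.factorization_eq_zero_of_not_dvd fun h3 => ?_
      exact Nat.Prime.not_coprime_iff_dvd.2 ⟨p, hp'.1, h3, hp'.2.1⟩ h
    rw [h1, Finsupp.add_apply, h2, zero_add]

theorem TGL_glue (er es er' es' n k : ℕ) (hes : 1 ≤ es) (hes' : 1 ≤ es')
    (h : Nat.Coprime (er * es) (er' * es')) (x x' : Cls) :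
    ∃ z : Cls, ∀ t : Tpl, t.1 = (n, k) → InC er es x t → InC er' es' x' t →
      InC (er * er') (es * es') z t := by
  have hcs : Nat.Coprime es es' := (Nat.Coprime.coprime_mul_left h).coprime_mul_left_right
  have hcr : Nat.Coprime er er' := (Nat.Coprime.coprime_mul_right h).coprime_mul_right_right
  have hcr2 : Nat.Coprime (er ^ 2) (er' ^ 2) := hcr.pow 2 2
  have hc1 : Nat.Coprime (e1 es n) (e1 es' n) :=
    Nat.Coprime.coprime_dvd_left (TGL_f_dvd (fun p => ¬ p ∣ n) hes)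
      (Nat.Coprime.coprime_dvd_right (TGL_f_dvd (fun p => ¬ p ∣ n) hes') hcs)
  have hc2 : Nat.Coprime (e2 es n) (e2 es' n) :=
    Nat.Coprime.coprime_dvd_left (TGL_f_dvd (fun p => p ∣ n) hes)
      (Nat.Coprime.coprime_dvd_right (TGL_f_dvd (fun p => p ∣ n) hes') hcs)
  have he1 : e1 (es * es') n = e1 es n * e1 es' n := TGL_f_mul (fun p => ¬ p ∣ n) hes hes' hcs
  have he2 : e2 (es * es') n = e2 es n * e2 es' n := TGL_f_mul (fun p => p ∣ n) hes hes' hcs
  obtain ⟨m, hm, hm'⟩ := TGL_crt h x.m x'.m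
  obtain ⟨g, hg, hg'⟩ := TGL_crt h x.g x'.g
  obtain ⟨c, hc, hc'⟩ := TGL_crt hc1 x.c x'.c
  obtain ⟨d, hd, hd'⟩ := TGL_crt hc2 x.c' x'.c'
  obtain ⟨u, hu, hu'⟩ := TGL_crt hcr2 x.u x'.u
  obtain ⟨v, hv, hv'⟩ := TGL_crt hcr2 x.v x'.v
  obtain ⟨w, hw, hw'⟩ := TGL_crt hcr2 x.w x'.w
  refine ⟨⟨m, g, c, d, u, v, w⟩, fun t ht i i' => ?_⟩
  have hn : t.1.1 = n := by rw [ht]
  have ic := i.hc
  have ic2 := i.hc'
  have jc := i'.hc
  have jc2 := i'.hc'
  rw [hn] at ic ic2 jc jc2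
  have key : ∀ {a : ℤ} {X p q : ℤ}, a ∣ X - p → a ∣ q - p → a ∣ X - q := by
    intro a X p q h1 h2
    have h3 : X - q = (X - p) - (q - p) := by ring
    rw [h3]
    exact dvd_sub h1 h2
  have key2 : ∀ {a : ℕ} {Z M G u v w u' v' w' : ℤ}, ((a ^ 2 : ℕ) : ℤ) ∣ u - u' →
      ((a ^ 2 : ℕ) : ℤ) ∣ v - v' → ((a ^ 2 : ℕ) : ℤ) ∣ w - w' →
      (a : ℤ) ^ 2 ∣ Z - (u' + v' * M + w' * G) → ((a ^ 2 : ℕ) : ℤ) ∣ Z - (u + v * M + w * G) := by
    intro a Z M G u v w u' v' w' h1 h2 h3 h4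
    have h5 : Z - (u + v * M + w * G) =
        (Z - (u' + v' * M + w' * G)) - ((u - u') + (v - v') * M + (w - w') * G) := by ring
    rw [h5]
    refine dvd_sub ?_ (dvd_add (dvd_add h1 (dvd_mul_of_dvd_left h2 _)) (dvd_mul_of_dvd_left h3 _))
    push_cast
    exact h4
  have hE : er * er' * (es * es') = er * es * (er' * es') := by ring
  refine ⟨?_, ?_, ?_, ?_, ?_⟩
  · rw [hE]
    exact TGL_mul h (key i.hm hm) (key i'.hm hm')
  · rw [hE]
    exact TGL_mul h (key i.hg hg) (key i'.hg hg')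
  · rw [hn, he1]
    exact TGL_mul hc1 (key ic hc) (key jc hc')
  · rw [hn, he2]
    exact TGL_mul hc2 (key ic2 hd) (key jc2 hd')
  · have h1 := TGL_mul hcr2 (key2 hu hv hw i.hz) (key2 hu' hv' hw' i'.hz)
    have h2 : (((er * er' : ℕ) : ℤ)) ^ 2 = ((er ^ 2 * er' ^ 2 : ℕ) : ℤ) := by
      push_cast
      ring
    rw [h2]
    exact h1

theorem TGL : TGL_stmt := by
  intro er es er' es' n k L L' _ hes _ hes' h
  choose glue hglue using TGL_glue er es er' es' n k hes hes' h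
  refine ⟨(L ×ˢ L').image (fun p => glue p.1 p.2), ?_, ?_⟩
  · refine card_image_le.trans ?_
    rw [card_product]
  · rintro t ht ⟨x, hx, hxt⟩ ⟨x', hx', hxt'⟩
    exact ⟨glue x x', mem_image.2 ⟨(x, x'), mem_product.2 ⟨hx, hx'⟩, rfl⟩,
      hglue x x' t ht hxt hxt'⟩

end Pool.Agent.T6
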