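import Pool.Agent.helper3.T6.SpecH

set_option autoImplicit false

/-! Row HCNT of project T6: many good elements for one ideal. -/

namespace Pool.Agent.T6

open Finset NumberField Pool.Agent.helper3.FT Pool.Agent.helper47.RA Pool.Agent.T5
open scoped nonZeroDivisors

/-- sizes -/
theorem HCNT_num {A B l s r k : ℝ} (hr : r = 2 * l * B) (h1 : r ^ 2 / 2 < s ^ 2) (h2 : s ^ 2 ≤ r ^ 2)
    (hs : 0 < s) (hl : 0 < l) (hB : 1 ≤ B) (hk : 1 ≤ k) (hA : A = (2000 * (k + 2)) ^ 2) :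
    1 ≤ A ∧ B * l ≤ s ∧ 25 * s ^ 2 ≤ A * B * s * l ∧ 720000 * l ≤ A * B * s ∧ r ≤ 2 * s ∧
      2880000 * (k + 2) ^ 2 * B ^ 2 * l ≤ A * B * s := by
  have hr0 : 0 < r := by rw [hr]; positivity
  have hA1 : 36000000 ≤ A := by
    rw [hA]
    nlinarith
  have hA0 : 0 < A := by linarith
  have hBl : B * l ≤ s := by
    refine le_of_lt (lt_of_pow_lt_pow_left₀ 2 hs.le ?_)
    have h3 : (B * l) ^ 2 ≤ r ^ 2 / 2 := by
      rw [hr]
      nlinarith [sq_nonneg (B * l)]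
    linarith
  have hsr : s ≤ r := by
    refine le_of_not_gt fun h => ?_
    nlinarith
  have hrs : r ≤ 2 * s := by
    refine le_of_not_gt fun h => ?_
    nlinarith
  have hBl0 : 0 < B * l := by positivity
  refine ⟨by linarith, hBl, ?_, ?_, hrs, ?_⟩
  · have h3 : 25 * s ≤ A * B * l := by
      have h4 : 25 * s ≤ 50 * (B * l) := by rw [hr] at hsr; linarith
      nlinarith
    calc 25 * s ^ 2 = (25 * s) * s := by ring
      _ ≤ (A * B * l) * s := mul_le_mul_of_nonneg_right h3 hs.le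
      _ = A * B * s * l := by ring
  · have h3 : l ≤ s := by nlinarith
    have h4 : l ≤ B * s := by nlinarith
    calc 720000 * l ≤ A * l := by nlinarith
      _ ≤ A * (B * s) := mul_le_mul_of_nonneg_left h4 hA0.le
      _ = A * B * s := by ring
  · have h3 : 2880000 * (k + 2) ^ 2 ≤ A := by
      rw [hA]
      nlinarith [sq_nonneg (k + 2)]
    calc 2880000 * (k + 2) ^ 2 * B ^ 2 * l = (2880000 * (k + 2) ^ 2) * B * (B * l) := by ring
      _ ≤ A * B * (B * l) := by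
          refine mul_le_mul_of_nonneg_right (mul_le_mul_of_nonneg_right h3 (by linarith)) hBl0.le
      _ ≤ A * B * s := mul_le_mul_of_nonneg_left hBl (by positivity)

/-- comparison by squares -/
theorem HCNT_sq {x y : ℝ} (hy : 0 ≤ y) (h : x ^ 2 ≤ y ^ 2) : x ≤ y := by
  refine le_of_not_gt fun h' => ?_
  nlinarith

/-- the contradiction with many bad elements -/
theorem HCNT_contra {N η η' A B Y : ℝ} {k : ℕ} (hk : 1 ≤ k) (hηk : 2 ≤ η * k) (hη' : η' = 1 / (2 * (k : ℝ) ^ 2))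
    (hN : (10 * A) ^ (2 * k ^ 2) < N) (hN1 : 1 ≤ N) (hA : 1 ≤ A) (hB : 1 ≤ B) (hBN : B ≤ N ^ η') (hY : Y ≤ N)
    (h : (N ^ η) ^ k ≤ Y * (2 * (5 * (A * B))) ^ (k ^ 2)) : False := by
  have hN0 : 0 < N := by linarith
  have hk0 : (0 : ℝ) < k := by exact_mod_cast hk
  have h1 : N ^ 2 ≤ (N ^ η) ^ k := by
    rw [← Real.rpow_natCast (N ^ η) k, ← Real.rpow_mul hN0.le, ← Real.rpow_natCast N 2]
    exact Real.rpow_le_rpow_of_exponent_le hN1 (by push_cast; exact hηk)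
  have h2 : B ^ (k ^ 2) ≤ √N := by
    calc B ^ (k ^ 2) ≤ (N ^ η') ^ (k ^ 2) := pow_le_pow_left₀ (by linarith) hBN _
      _ = √N := by
        rw [← Real.rpow_natCast (N ^ η') (k ^ 2), ← Real.rpow_mul hN0.le, Real.sqrt_eq_rpow, hη']
        congr 1
        push_cast
        field_simp
  have h3 : (2 * (5 * (A * B))) ^ (k ^ 2) ≤ (10 * A) ^ (k ^ 2) * √N := by
    have h4 : 2 * (5 * (A * B)) = (10 * A) * B := by ring
    rw [h4, mul_pow]
    exact mul_le_mul_of_nonneg_left h2 (by positivity)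
  have h5 : (10 * A) ^ (k ^ 2) < √N := by
    rw [Real.lt_sqrt (by positivity), ← pow_mul, mul_comm (k ^ 2) 2]
    exact hN
  have h6 : 0 < √N := Real.sqrt_pos.2 hN0
  have h7 : √N * √N = N := Real.mul_self_sqrt hN0.le
  have h8 : Y * (2 * (5 * (A * B))) ^ (k ^ 2) ≤ N * ((10 * A) ^ (k ^ 2) * √N) :=
    mul_le_mul hY h3 (by positivity) hN0.le
  have h9 : (10 * A) ^ (k ^ 2) * √N < N := by
    calc (10 * A) ^ (k ^ 2) * √N < √N * √N := mul_lt_mul_of_pos_right h5 h6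
      _ = N := h7
  nlinarith

theorem HCNT (hHROW : HROW_stmt) (hHRAT : HRAT_stmt) (hHBAD : HBAD_stmt) : HCNT_stmt := by
  classical
  intro η hη
  set k : ℕ := ⌈2 / η⌉₊ with hkdef
  have hk1 : 1 ≤ k := Nat.one_le_iff_ne_zero.2 (Nat.ceil_pos.2 (by positivity)).ne'
  have hk1' : (1 : ℝ) ≤ k := by exact_mod_cast hk1
  have hηk : 2 ≤ η * k := by
    have h1 : 2 / η ≤ k := Nat.le_ceil _
    rw [div_le_iff₀ hη] at h1
    linarith
  set A : ℝ := (2000 * ((k : ℝ) + 2)) ^ 2 with hAdef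
  have hA1 : 1 ≤ A := by
    rw [hAdef]
    nlinarith
  refine ⟨A, 1 / (2 * (k : ℝ) ^ 2), 64 + (10 * A) ^ (2 * k ^ 2), hA1, by positivity, ?_⟩
  intro K _ _ Q N Y l a hN hD1 hD2 hY hl1 hl2 ha
  obtain ⟨⟨hbot, hprim, hpr, hnpr, hYZ, hZY⟩, hshort, hvec⟩ := id ha
  have hA10 : 0 < (10 * A) ^ (2 * k ^ 2) := by positivity
  have hN64 : 64 ≤ N := by linarith
  have hN0 : 0 < N := by linarith
  set r := √N with hrdef
  have hr2 : r ^ 2 = N := Real.sq_sqrt hN0.le
  have hr0 : 0 < r := Real.sqrt_pos.2 hN0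
  have hr8 : 8 ≤ r := by
    rw [hrdef, Real.le_sqrt' (by norm_num)]
    linarith
  have hD0 : (0 : ℝ) < -(Q.D : ℝ) := by linarith
  have hDneg : Q.D < 0 := by
    have : (Q.D : ℝ) < 0 := by linarith
    exact_mod_cast this
  have hD4 : Q.D < -4 := by
    have : (Q.D : ℝ) < -4 := by linarith
    exact_mod_cast this
  have habs : |(Q.D : ℝ)| = -(Q.D : ℝ) := abs_of_neg (by linarith)
  set s := √(-(Q.D : ℝ)) with hsdef
  have hs2 : s ^ 2 = -(Q.D : ℝ) := Real.sq_sqrt hD0.le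
  have hs0 : 0 < s := Real.sqrt_pos.2 hD0
  have hl0 : 0 < l := by
    have : 0 < N ^ (1 / 2 - 1 / (2 * (k : ℝ) ^ 2)) := Real.rpow_pos_of_pos hN0 _
    linarith
  set B := r / (2 * l) with hBdef
  have hrB : r = 2 * l * B := by
    rw [hBdef]
    field_simp
  have hB1 : 1 ≤ B := by
    rw [hBdef, le_div_iff₀ (by positivity)]
    linarith
  have hBN : B ≤ N ^ (1 / (2 * (k : ℝ) ^ 2)) := by
    rw [hBdef, div_le_iff₀ (by positivity)]
    have h1 : r = N ^ (1 / (2 * (k : ℝ) ^ 2)) * N ^ (1 / 2 - 1 / (2 * (k : ℝ) ^ 2)) := by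
      rw [← Real.rpow_add hN0, hrdef, Real.sqrt_eq_rpow]
      congr 1
      ring
    rw [h1]
    exact mul_le_mul_of_nonneg_left hl1 (Real.rpow_nonneg hN0.le _)
  obtain ⟨-, hBl, hc1, hc2, hc3, hc4⟩ := HCNT_num (k := (k : ℝ)) hrB (by rw [hr2, hs2]; exact hD1)
    (by rw [hr2, hs2]; exact hD2) hs0 hl0 hB1 hk1' hAdef
  -- the number T
  have hT : A * N / (2 * l) * s / r = A * B * s := by
    rw [hBdef, ← hr2]
    field_simp
  have hY2 : A * N / (2 * l) = A * r * B := by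
    rw [hBdef, ← hr2]
    field_simp
  set T := A * B * s with hTdef
  have hT0 : 0 < T := by positivity
  have hTs : √T ^ 2 = T := Real.sq_sqrt hT0.le
  have hT0' : 0 < √T := Real.sqrt_pos.2 hT0
  -- the ideal
  obtain ⟨θ, hθ⟩ : ∃ θ : 𝓞 K, Ideal.span {θ} = a ^ 5 := by
    obtain ⟨θ, h⟩ := hpr.principal
    exact ⟨θ, h.symm⟩
  set Z : ℝ := (Ideal.absNorm a : ℝ) with hZdef
  have hZ1 : 1 ≤ Z := by
    have h1 : Ideal.absNorm a ≠ 0 := fun h => hbot (Ideal.absNorm_eq_zero_iff.1 h)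
    rw [hZdef]
    exact_mod_cast Nat.one_le_iff_ne_zero.2 h1
  have hZ0 : 0 < Z := by linarith
  obtain ⟨e₁, e₂, hRB, hv1, hv2⟩ := hHRAT K Q hDneg a l hbot hshort hvec
  set v := Q.v₁ e₁ with hvdef
  have hv0 : 0 < v := by
    rcases (Q.v₁_nonneg e₁).lt_or_eq with h | h
    · exact h
    · exfalso
      have : 0 < v ^ 2 := lt_of_le_of_lt (by positivity) hv1
      rw [hvdef, ← h] at this
      norm_num at this
  have hcond1 : 5 * (Z * √|(Q.D : ℝ)|) ≤ √T * v := by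
    rw [habs]
    refine HCNT_sq (by positivity) ?_
    calc (5 * (Z * s)) ^ 2 = Z ^ 2 * (25 * s ^ 2) := by ring
      _ ≤ Z ^ 2 * (T * l) := mul_le_mul_of_nonneg_left hc1 (by positivity)
      _ = T * (Z ^ 2 * l) := by ring
      _ ≤ T * v ^ 2 := mul_le_mul_of_nonneg_left hv1.le hT0.le
      _ = (√T * v) ^ 2 := by rw [mul_pow, hTs]
  have hcond2 : 300 * v ≤ Z * √T := by
    refine HCNT_sq (by positivity) ?_
    calc (300 * v) ^ 2 = 90000 * v ^ 2 := by ring
      _ ≤ 90000 * (Z ^ 2 * (8 * l)) := by linarith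
      _ = Z ^ 2 * (720000 * l) := by ring
      _ ≤ Z ^ 2 * T := mul_le_mul_of_nonneg_left hc2 (by positivity)
      _ = (Z * √T) ^ 2 := by rw [mul_pow, hTs]
  have hX : (2 * ((k : ℝ) + 2) * B) * (300 * v) ≤ Z * √T := by
    refine HCNT_sq (by positivity) ?_
    calc ((2 * ((k : ℝ) + 2) * B) * (300 * v)) ^ 2 = 360000 * ((k : ℝ) + 2) ^ 2 * B ^ 2 * v ^ 2 := by ring
      _ ≤ 360000 * ((k : ℝ) + 2) ^ 2 * B ^ 2 * (Z ^ 2 * (8 * l)) :=
          mul_le_mul_of_nonneg_left hv2 (by positivity)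
      _ = Z ^ 2 * (2880000 * ((k : ℝ) + 2) ^ 2 * B ^ 2 * l) := by ring
      _ ≤ Z ^ 2 * T := mul_le_mul_of_nonneg_left hc4 (by positivity)
      _ = (Z * √T) ^ 2 := by rw [mul_pow, hTs]
  obtain ⟨j, x₀, hj0, hj, hrow⟩ := hHROW K Q hDneg a θ e₁ e₂ hprim hbot hθ hRB T hT0 hcond1 hcond2
  rw [habs] at hj
  -- the odd numbers of the row
  obtain ⟨o, ho, hox, hox'⟩ : ∃ o : ℤ, Odd o ∧ x₀ ≤ o ∧ o ≤ x₀ + 1 := by
    rcases Int.even_or_odd x₀ with h | h
    · exact ⟨x₀ + 1, h.add_one, by omega, le_rfl⟩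
    · exact ⟨x₀, h, le_rfl, by omega⟩
  set m : ℕ := ⌊((k : ℝ) + 2) * B⌋₊ with hmdef
  have hm1 : (m : ℝ) ≤ ((k : ℝ) + 2) * B := Nat.floor_le (by positivity)
  have hm2 : ((k : ℝ) + 2) * B < m + 1 := Nat.lt_floor_add_one _
  set x : ℕ → ℤ := fun i => o + 2 * i with hxdef
  have hxinj : Function.Injective x := by
    intro i i' h
    have h' : o + 2 * (i : ℤ) = o + 2 * (i' : ℤ) := h
    omega
  have hx0 : ∀ i, x₀ ≤ x i := fun i => by
    show x₀ ≤ o + 2 * (i : ℤ)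
    omega
  have hxle : ∀ i ∈ range m, ((x i : ℝ) - x₀) * (300 * v) ≤ Z * √T := by
    intro i hi
    have h1 : i + 1 ≤ m := mem_range.1 hi
    have h2 : (x i : ℝ) - x₀ ≤ 2 * ((k : ℝ) + 2) * B := by
      have h3 : x i - x₀ ≤ 2 * (m : ℤ) := by
        show o + 2 * (i : ℤ) - x₀ ≤ 2 * (m : ℤ)
        omega
      have h4 : (x i : ℝ) - x₀ ≤ 2 * (m : ℝ) := by exact_mod_cast h3
      linarith
    exact (mul_le_mul_of_nonneg_right h2 (by positivity)).trans hX
  have hxodd : ∀ i, Odd (x i) := fun i => by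
    obtain ⟨w, hw⟩ := ho
    exact ⟨w + i, by show o + 2 * (i : ℤ) = 2 * (w + i) + 1; rw [hw]; ring⟩
  have hrow' : ∀ i ∈ range m, (x i : 𝓞 K) * e₁ + j * e₂ ∈ AL Q a T ∧
      ∃ γ : 𝓞 K, Adm Q a ((x i : 𝓞 K) * e₁ + j * e₂) γ ∧
        ∀ Y₂ : ℝ, Y₂ ≤ 2 * T → GoodR Q (1 / 100) Y₂ a ((x i : 𝓞 K) * e₁ + j * e₂) γ :=
    fun i hi => hrow (x i) (hx0 i) (hxle i hi) (hxodd i)
  choose! hAL γ hAdm hGood using hrow'
  -- the bad ones
  set M := (range m).filter (fun i => N ^ η < (gd Q ((x i : 𝓞 K) * e₁ + j * e₂) (γ i) : ℝ)) with hMdef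
  have hMcard : M.card < k := by
    by_contra hcon
    push Not at hcon
    obtain ⟨S, hSM, hSk⟩ := exists_subset_card_eq hcon
    have hθY := Pool.Agent.helper26.T5.AllL.aLYT K Q a θ hD4 hbot hθ hnpr
    have h1 := hHBAD K Q hD4 a θ e₁ e₂ hbot hnpr hθ hRB j (S.image x) (N ^ η) (5 * (A * B)) hj0
      (Real.one_le_rpow (by linarith) hη.le) (by nlinarith) (by
        intro y hy
        obtain ⟨i, hi, rfl⟩ := mem_image.1 hy
        have hiM := mem_filter.1 (hSM hi)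
        exact ⟨γ i, hAdm i hiM.1, hiM.2⟩) (by
        intro y hy y' hy'
        obtain ⟨i, hi, rfl⟩ := mem_image.1 hy
        obtain ⟨i', hi', rfl⟩ := mem_image.1 hy'
        have hiM := (mem_filter.1 (hSM hi)).1
        have hiM' := (mem_filter.1 (hSM hi')).1
        have h2 : |(x i : ℝ) - x i'| * (300 * v) ≤ Z * √T := by
          have a1 := hxle i hiM
          have a2 := hxle i' hiM'
          have a3 : (x₀ : ℝ) ≤ x i := by exact_mod_cast hx0 i
          have a4 : (x₀ : ℝ) ≤ x i' := by exact_mod_cast hx0 i'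
          rcases abs_cases ((x i : ℝ) - x i') with ⟨h, _⟩ | ⟨h, _⟩
          · rw [h]
            refine le_trans (mul_le_mul_of_nonneg_right ?_ (by positivity)) a1
            linarith
          · rw [h]
            refine le_trans (mul_le_mul_of_nonneg_right ?_ (by positivity)) a2
            linarith
        rw [abs_mul]
        have h3 : (|(j : ℝ)| * (Z * s)) * (|(x i : ℝ) - x i'| * (300 * v)) ≤
            (2 * (√T * v)) * (Z * √T) := mul_le_mul hj h2 (by positivity) (by positivity)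
        have h4 : (2 * (√T * v)) * (Z * √T) = (2 * (A * B)) * (Z * s * v) := by
          calc (2 * (√T * v)) * (Z * √T) = 2 * √T ^ 2 * (Z * v) := by ring
            _ = (2 * (A * B)) * (Z * s * v) := by rw [hTs, hTdef]; ring
        have h5 : (|(j : ℝ)| * |(x i : ℝ) - x i'|) * 300 * (Z * s * v) ≤
            (2 * (A * B)) * (Z * s * v) := by
          rw [← h4]
          refine le_trans (le_of_eq ?_) h3
          ring
        have h6 := le_of_mul_le_mul_right h5 (by positivity)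
        have h7 : 0 < A * B := by positivity
        have h8 : 0 ≤ |(j : ℝ)| * |(x i : ℝ) - x i'| := by positivity
        linarith)
    rw [card_image_of_injective _ hxinj, hSk] at h1
    have hYN : |(Q.Y θ : ℝ)| ≤ N := by
      have h2 := hθY.2.1
      rw [habs] at h2
      have hZr : Z ≤ r := hZY.trans hY
      have h3 : Z ^ 5 ≤ r ^ 5 := pow_le_pow_left₀ hZ0.le hZr 5
      have h4 : (Q.Y θ : ℝ) ^ 2 * (r ^ 2 / 2) ≤ 4 * r ^ 5 := by
        refine le_trans (mul_le_mul_of_nonneg_left ?_ (sq_nonneg _)) (h2.trans (by linarith))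
        rw [hr2]
        exact hD1.le
      have h5 : (Q.Y θ : ℝ) ^ 2 ≤ 8 * r ^ 3 := by
        refine le_of_mul_le_mul_right ?_ (show 0 < r ^ 2 / 2 by positivity)
        calc (Q.Y θ : ℝ) ^ 2 * (r ^ 2 / 2) ≤ 4 * r ^ 5 := h4
          _ = 8 * r ^ 3 * (r ^ 2 / 2) := by ring
      refine HCNT_sq hN0.le ?_
      rw [sq_abs, ← hr2]
      calc (Q.Y θ : ℝ) ^ 2 ≤ 8 * r ^ 3 := h5
        _ ≤ r * r ^ 3 := mul_le_mul_of_nonneg_right hr8 (by positivity)
        _ = (r ^ 2) ^ 2 := by ring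
    exact HCNT_contra hk1 hηk rfl (by linarith) (by linarith) hA1 hB1 hBN hYN h1
  -- the good ones
  refine ⟨((range m) \ M).image (fun i => (x i : 𝓞 K) * e₁ + j * e₂), ?_, ?_⟩
  · intro α hα
    obtain ⟨i, hi, rfl⟩ := mem_image.1 hα
    obtain ⟨hi1, hi2⟩ := mem_sdiff.1 hi
    refine ⟨⟨hbot, hprim, hpr, hnpr, hYZ, hZY⟩, ?_, γ i, hAdm i hi1, ?_, ?_⟩
    · show (x i : 𝓞 K) * e₁ + j * e₂ ∈ AL Q a (A * N / (2 * l) * s / r)
      rw [hT]
      exact hAL i hi1
    · refine hGood i hi1 _ ?_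
      rw [hY2, hTdef]
      have h1 : A * B * r ≤ A * B * (2 * s) := mul_le_mul_of_nonneg_left hc3 (by positivity)
      linarith
    · exact le_of_not_gt fun h => hi2 (mem_filter.2 ⟨hi1, h⟩)
  · have hinj : Function.Injective (fun i : ℕ => (x i : 𝓞 K) * e₁ + j * e₂) := by
      intro i i' h
      have h1 : (x i : 𝓞 K) * e₁ + j * e₂ = (x i' : 𝓞 K) * e₁ + j * e₂ := h
      have h2 : (x i : 𝓞 K) = (x i' : 𝓞 K) := mul_right_cancel₀ hRB.ne (add_right_cancel h1)
      exact hxinj (by exact_mod_cast h2)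
    rw [card_image_of_injective _ hinj]
    have h1 : m ≤ ((range m) \ M).card + M.card := by
      have := card_le_card_sdiff_add_card (s := range m) (t := M)
      rwa [card_range] at this
    have h2 : (m : ℝ) ≤ (((range m) \ M).card : ℝ) + (k - 1) := by
      have h3 : M.card + 1 ≤ k := hMcard
      have h4 : (M.card : ℝ) + 1 ≤ k := by exact_mod_cast h3
      have h5 : (m : ℝ) ≤ (((range m) \ M).card : ℝ) + (M.card : ℝ) := by exact_mod_cast h1
      linarith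
    show r / (2 * l) ≤ _
    have h6 : B ≤ (((range m) \ M).card : ℝ) := by nlinarith
    exact h6

end Pool.Agent.T6
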