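import Pool.Agent.helper95.T6.SpecE

/-!
# T6L (MP_16912e_nt), row EGD: many tuples which are not bad at the small primes
-/

set_option autoImplicit false

namespace Pool.Agent.T6

open Finset Pool.Agent.helper3.FT Pool.Agent.T5

/-- the box is finite -/
theorem EGD_fin (N Y Y₂ : ℝ) : {t : Tpl | BX N Y Y₂ t}.Finite := by
  have h1 : {t : Tpl | BX N Y Y₂ t} ⊆
      ((Set.Iic ⌊1 / 2 * sN N Y Y₂⌋₊ ×ˢ Set.Iic ⌊17 / 100 * sK N Y Y₂⌋₊) ×ˢ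
        (Set.Icc (-⌈1 / 1000 * sM N Y Y₂⌉) ⌈1 / 1000 * sM N Y Y₂⌉ ×ˢ
          (Set.Icc (-⌈1 / 1000 * sG N Y Y₂⌉) ⌈1 / 1000 * sG N Y Y₂⌉ ×ˢ
            Set.Icc ⌊74 / 100 * Y⌋ ⌈76 / 100 * Y⌉))) := by
    rintro ⟨⟨n, k⟩, m, g, z⟩ h
    have hm := abs_le.1 h.m1
    have hg := abs_le.1 h.g1
    have hz1 := h.z1
    have hz2 := h.z2
    simp only at hm hg hz1 hz2
    have e1 := Int.le_ceil (1 / 1000 * sM N Y Y₂)
    have e2 := Int.le_ceil (1 / 1000 * sG N Y Y₂)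
    have e3 := Int.le_ceil (76 / 100 * Y)
    have e4 := Int.floor_le (74 / 100 * Y)
    refine ⟨⟨Nat.le_floor h.n2, Nat.le_floor h.k2⟩, ⟨?_, ?_⟩, ⟨?_, ?_⟩, ?_, ?_⟩
    · have h2 : ((-⌈1 / 1000 * sM N Y Y₂⌉ : ℤ) : ℝ) ≤ (m : ℝ) := by
        push_cast
        linarith
      exact_mod_cast h2
    · have h2 : (m : ℝ) ≤ ((⌈1 / 1000 * sM N Y Y₂⌉ : ℤ) : ℝ) := by linarith
      exact_mod_cast h2
    · have h2 : ((-⌈1 / 1000 * sG N Y Y₂⌉ : ℤ) : ℝ) ≤ (g : ℝ) := by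
        push_cast
        linarith
      exact_mod_cast h2
    · have h2 : (g : ℝ) ≤ ((⌈1 / 1000 * sG N Y Y₂⌉ : ℤ) : ℝ) := by linarith
      exact_mod_cast h2
    · have h2 : ((⌊74 / 100 * Y⌋ : ℤ) : ℝ) ≤ (z : ℝ) := by linarith
      exact_mod_cast h2
    · have h2 : (z : ℝ) ≤ ((⌈76 / 100 * Y⌉ : ℤ) : ℝ) := by linarith
      exact_mod_cast h2
  refine Set.Finite.subset ?_ h1
  exact ((Set.finite_Iic _).prod (Set.finite_Iic _)).prod ((Set.finite_Icc _ _).prod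
    ((Set.finite_Icc _ _).prod (Set.finite_Icc _ _)))

/-- tuples of the class are not bad at the primes dividing `e` -/
theorem EGD_bad {e p : ℕ} {t : Tpl} (h : CC e t) (hp : p.Prime) (hpe : p ∣ e) : ¬ BadP p t := by
  have hpe' : (p : ℤ) ∣ (e : ℤ) := by exact_mod_cast hpe
  have key : ∀ x : ℤ, (e : ℤ) ∣ x - 1 → ¬ (p : ℤ) ∣ x := by
    intro x h1 h2
    have h3 : (p : ℤ) ∣ x - (x - 1) := dvd_sub h2 (hpe'.trans h1)
    have h4 : x - (x - 1) = 1 := by ring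
    rw [h4] at h3
    have h5 : p ∣ 1 := by exact_mod_cast h3
    exact hp.one_lt.ne' (Nat.dvd_one.1 h5)
  rintro ⟨-, h1 | h1⟩
  · rcases hp.dvd_mul.1 h1 with h2 | h2
    · exact key _ h.n (by exact_mod_cast h2)
    · exact key _ h.k (by exact_mod_cast h2)
  · exact key _ h.z h1

/-- the sum over the primes of the reciprocal squares -/
theorem EGD_sq (s : Finset ℕ) (w : ℕ) (hw : 1 ≤ w) (hs : ∀ p ∈ s, w < p) :
    ∑ p ∈ s, 1 / (p : ℝ) ^ 2 ≤ 1 / (w : ℝ) := by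
  have h1 : s ⊆ Ioc w (w + s.sup id) := by
    intro p hp
    rw [mem_Ioc]
    refine ⟨hs p hp, ?_⟩
    have h2 : p ≤ s.sup id := Finset.le_sup (f := id) hp
    omega
  have h2 : ∑ p ∈ s, 1 / (p : ℝ) ^ 2 ≤ ∑ p ∈ Ioc w (w + s.sup id), 1 / (p : ℝ) ^ 2 :=
    sum_le_sum_of_subset_of_nonneg h1 fun p _ _ => by positivity
  have h3 := sum_Ioc_inv_sq_le_sub (α := ℝ) (k := w) (n := w + s.sup id) (by omega) (by omega)
  have h4 : ∑ p ∈ Ioc w (w + s.sup id), 1 / (p : ℝ) ^ 2 = ∑ p ∈ Ioc w (w + s.sup id), ((p : ℝ) ^ 2)⁻¹ :=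
    sum_congr rfl fun p _ => by rw [one_div]
  have h5 : (0 : ℝ) ≤ ((w + s.sup id : ℕ) : ℝ)⁻¹ := by positivity
  rw [h4] at h2
  have h6 : 1 / (w : ℝ) = (w : ℝ)⁻¹ := one_div _
  rw [h6]
  linarith

/-- the range -/
theorem EGD_rg {η ϱ N : ℝ} (hϱ : 0 < ϱ) (hϱ1 : ϱ ≤ 1) (hN : 1 ≤ N) (h : 1 / ϱ ≤ N ^ η) :
    Rg η N (ϱ * √N) (√N) := by
  have hN0 : 0 < N := by linarith
  have hs : 0 < √N := Real.sqrt_pos.2 hN0
  have hss : √N * √N = N := Real.mul_self_sqrt hN0.le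
  have h1 : 1 ≤ ϱ * N ^ η := by
    rw [div_le_iff₀ hϱ] at h
    linarith
  have hp : 0 < N ^ η := Real.rpow_pos_of_pos hN0 _
  refine ⟨?_, ?_, ?_, ?_⟩
  · nlinarith
  · nlinarith
  · rw [mul_assoc, hss]
    nlinarith
  · rw [mul_assoc, hss, Real.rpow_sub hN0, Real.rpow_one, div_le_iff₀ hp]
    nlinarith

/-- the bound for the bad tuples, two ranges of primes -/
theorem EGD_sum (P : Finset ℕ) (f : ℕ → ℝ) (w₀ w : ℕ) (S A B E F X : ℝ) (hw₀ : 1 ≤ w₀) (hw : 1 ≤ w) (hS : 0 ≤ S)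
    (hA : 0 ≤ A) (hB : 0 ≤ B) (hE : 0 ≤ E) (hF : 0 ≤ F) (hX : (P.card : ℝ) ≤ X)
    (h1 : ∀ p ∈ P, 1 ≤ p)
    (h0 : ∀ p ∈ P, p ≤ w₀ → f p ≤ 0) (h2 : ∀ p ∈ P, w₀ < p → p ≤ w → f p ≤ (A * (1 / (p : ℝ) ^ 2) + E) * S)
    (h3 : ∀ p ∈ P, w₀ < p → w < p → f p ≤ (B * (1 / (p : ℝ) ^ 2) + F) * S) :
    ∑ p ∈ P, f p ≤ (A / w₀ + B / w + w * E + X * F) * S := by
  classical
  have k1 : ∀ p ∈ P, f p ≤ (A * (if w₀ < p then 1 / (p : ℝ) ^ 2 else 0) + (if p ≤ w then E else 0)) * S +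
      (B * (if w < p then 1 / (p : ℝ) ^ 2 else 0) + F) * S := by
    intro p hp
    have e1 : (0 : ℝ) ≤ 1 / (p : ℝ) ^ 2 := by positivity
    by_cases c1 : p ≤ w₀
    · refine (h0 p hp c1).trans ?_
      have e2 : (0 : ℝ) ≤ (if w₀ < p then 1 / (p : ℝ) ^ 2 else 0) := by split_ifs <;> positivity
      have e3 : (0 : ℝ) ≤ (if w < p then 1 / (p : ℝ) ^ 2 else 0) := by split_ifs <;> positivity
      have e4 : (0 : ℝ) ≤ (if p ≤ w then E else 0) := by split_ifs <;> positivity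
      positivity
    · have c1' : w₀ < p := by omega
      rw [if_pos c1']
      by_cases c2 : p ≤ w
      · have e5 := h2 p hp c1' c2
        rw [if_pos c2, if_neg (by omega : ¬ w < p)]
        have e6 : 0 ≤ (B * 0 + F) * S := by positivity
        linarith
      · have c2' : w < p := by omega
        have e5 := h3 p hp c1' c2'
        rw [if_neg c2, if_pos c2']
        have e6 : 0 ≤ (A * (1 / (p : ℝ) ^ 2) + 0) * S := by positivity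
        linarith
  refine (sum_le_sum k1).trans ?_
  rw [sum_add_distrib, ← sum_mul, ← sum_mul, sum_add_distrib, sum_add_distrib, ← mul_sum, ← mul_sum,
    ← sum_filter, ← sum_filter, ← sum_filter, sum_const, sum_const, nsmul_eq_mul, nsmul_eq_mul]
  have k2 := EGD_sq (P.filter (fun p => w₀ < p)) w₀ hw₀ (fun p hp => (mem_filter.1 hp).2)
  have k3 := EGD_sq (P.filter (fun p => w < p)) w hw (fun p hp => (mem_filter.1 hp).2)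
  have k4 : ((P.filter (fun p => p ≤ w)).card : ℝ) ≤ w := by
    have e1 : P.filter (fun p => p ≤ w) ⊆ Icc 1 w := by
      intro p hp
      rw [mem_filter] at hp
      rw [mem_Icc]
      exact ⟨h1 p hp.1, hp.2⟩
    have e2 := card_le_card e1
    rw [Nat.card_Icc, Nat.add_sub_cancel] at e2
    exact_mod_cast e2
  have k5 : A * ∑ p ∈ P.filter (fun p => w₀ < p), 1 / (p : ℝ) ^ 2 ≤ A / w₀ := by
    have e1 := mul_le_mul_of_nonneg_left k2 hA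
    rwa [mul_one_div] at e1
  have k6 : B * ∑ p ∈ P.filter (fun p => w < p), 1 / (p : ℝ) ^ 2 ≤ B / w := by
    have e1 := mul_le_mul_of_nonneg_left k3 hB
    rwa [mul_one_div] at e1
  have k7 := mul_le_mul_of_nonneg_right k4 hE
  have k8 := mul_le_mul_of_nonneg_right hX hF
  rw [← add_mul]
  refine mul_le_mul_of_nonneg_right ?_ hS
  linarith

/-- powers of the relative size -/
theorem EGD_pow {ϱ X : ℝ} (hϱ : 0 < ϱ) (hϱ1 : ϱ ≤ 1) (hX : X = ϱ ^ (-(11 / 10 : ℝ))) :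
    1 ≤ X ∧ 1 / ϱ ≤ X ∧ ϱ ^ (3 / 2 : ℝ) ≤ ϱ ^ (1 / 40 : ℝ) ∧
      X * (ϱ ^ (3 / 2 : ℝ) * X ^ (1 / 4 : ℝ) * (1 + X * ϱ)) ≤ 2 * ϱ ^ (1 / 40 : ℝ) := by
  have h1 : 1 ≤ X := by
    rw [hX]
    exact Real.one_le_rpow_of_pos_of_le_one_of_nonpos hϱ hϱ1 (by norm_num)
  have h2 : 1 / ϱ ≤ X := by
    rw [hX, one_div, ← Real.rpow_neg_one]
    exact Real.rpow_le_rpow_of_exponent_ge hϱ hϱ1 (by norm_num)
  refine ⟨h1, h2, Real.rpow_le_rpow_of_exponent_ge hϱ hϱ1 (by norm_num), ?_⟩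
  have e1 : X ^ (1 / 4 : ℝ) = ϱ ^ (-(11 / 40 : ℝ)) := by
    rw [hX, ← Real.rpow_mul hϱ.le]
    norm_num
  have e2 : X * (ϱ ^ (3 / 2 : ℝ) * X ^ (1 / 4 : ℝ)) = ϱ ^ (1 / 8 : ℝ) := by
    rw [e1, hX, ← Real.rpow_add hϱ, ← Real.rpow_add hϱ]
    norm_num
  have e3 : ϱ ^ (1 / 8 : ℝ) * (X * ϱ) = ϱ ^ (1 / 40 : ℝ) := by
    have e4 : X * ϱ = ϱ ^ (-(1 / 10 : ℝ)) := by
      rw [hX]
      nth_rewrite 2 [← Real.rpow_one ϱ]
      rw [← Real.rpow_add hϱ]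
      norm_num
    rw [e4, ← Real.rpow_add hϱ]
    norm_num
  have e5 : ϱ ^ (1 / 8 : ℝ) ≤ ϱ ^ (1 / 40 : ℝ) := Real.rpow_le_rpow_of_exponent_ge hϱ hϱ1 (by norm_num)
  calc X * (ϱ ^ (3 / 2 : ℝ) * X ^ (1 / 4 : ℝ) * (1 + X * ϱ))
      = X * (ϱ ^ (3 / 2 : ℝ) * X ^ (1 / 4 : ℝ)) + X * (ϱ ^ (3 / 2 : ℝ) * X ^ (1 / 4 : ℝ)) * (X * ϱ) := by ring
    _ = ϱ ^ (1 / 8 : ℝ) + ϱ ^ (1 / 40 : ℝ) := by rw [e2, e3]
    _ ≤ 2 * ϱ ^ (1 / 40 : ℝ) := by linarith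

theorem EGD (hEBX : EBX_stmt) : EGD_stmt := by
  classical
  rintro ⟨η₁, c, hη₁, hc, hL⟩ ⟨η₂, hη₂, hT⟩
  obtain ⟨C₀, hC₀, hT⟩ := hT (1 / 100) (by norm_num) (by norm_num)
  obtain ⟨w₀, hw₀c, hw₀5⟩ : ∃ w₀ : ℕ, 8 * C₀ / c ≤ w₀ ∧ 5 ≤ w₀ := by
    obtain ⟨a, ha⟩ := exists_nat_ge (8 * C₀ / c)
    exact ⟨max a 5, ha.trans (by exact_mod_cast le_max_left a 5), le_max_right _ _⟩
  obtain ⟨e₀, he₀⟩ : ∃ e₀ : ℕ, e₀ = (w₀.factorial) ^ 4 := ⟨_, rfl⟩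
  have he1 : 1 ≤ e₀ := by
    rw [he₀]
    exact Nat.one_le_pow _ _ (Nat.factorial_pos _)
  have hedvd : ∀ p : ℕ, p.Prime → p ≤ w₀ → p ∣ e₀ := by
    intro p hp h
    rw [he₀]
    exact (Nat.dvd_factorial hp.pos h).trans (dvd_pow_self _ (by norm_num))
  have hendvd : ∀ p : ℕ, p.Prime → w₀ < p → ¬ p ∣ e₀ := by
    intro p hp h h1
    rw [he₀] at h1
    have h2 := hp.dvd_of_dvd_pow h1
    rw [hp.dvd_factorial] at h2
    omega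
  have h30 : 900 ∣ e₀ := by
    have h1 : 30 ∣ w₀.factorial := by
      have h2 : Nat.factorial 5 ∣ w₀.factorial := Nat.factorial_dvd_factorial hw₀5
      have h3 : Nat.factorial 5 = 120 := by decide
      rw [h3] at h2
      exact (by norm_num : (30 : ℕ) ∣ 120).trans h2
    have h4 : (30 : ℕ) ^ 4 ∣ w₀.factorial ^ 4 := pow_dvd_pow_of_dvd h1 4
    rw [he₀]
    exact (by norm_num : (900 : ℕ) ∣ 30 ^ 4).trans h4
  have h16 : 16 ∣ e₀ := by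
    have h1 : 2 ∣ w₀.factorial := Nat.dvd_factorial (by norm_num) (by omega)
    have h2 : (2 : ℕ) ^ 4 ∣ w₀.factorial ^ 4 := pow_dvd_pow_of_dvd h1 4
    rw [he₀]
    exact h2
  obtain ⟨Ca, Na, hCa, hLa⟩ := hL e₀ he1
  obtain ⟨Cb, Nb, hCb, hTb⟩ := hT e₀ he1
  obtain ⟨Cc, Nc, hCc, hTc⟩ := hT 1 le_rfl
  obtain ⟨w, hw, hw1⟩ : ∃ w : ℕ, 8 * C₀ * (e₀ : ℝ) ^ 5 / c ≤ w ∧ 1 ≤ w := by
    obtain ⟨a, ha⟩ := exists_nat_ge (8 * C₀ * (e₀ : ℝ) ^ 5 / c)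
    exact ⟨max a 1, ha.trans (by exact_mod_cast le_max_left a 1), le_max_right _ _⟩
  have he0 : (1 : ℝ) ≤ (e₀ : ℝ) := by exact_mod_cast he1
  obtain ⟨E5, hE5⟩ : ∃ E5 : ℝ, E5 = (e₀ : ℝ) ^ 5 := ⟨_, rfl⟩
  have hE5p : 0 < E5 := by
    rw [hE5]
    positivity
  have hwr : (1 : ℝ) ≤ (w : ℝ) := by exact_mod_cast hw1
  have hw₀r : (5 : ℝ) ≤ (w₀ : ℝ) := by exact_mod_cast hw₀5
  obtain ⟨K, hK⟩ : ∃ K : ℝ, K = Ca + 2 * Cb * (w : ℝ) ^ 3 + 2 * Cc := ⟨_, rfl⟩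
  have hKp : 0 < K := by
    rw [hK]
    positivity
  obtain ⟨b, hb⟩ : ∃ b : ℝ, b = c / (4 * E5 * K) := ⟨_, rfl⟩
  have hbp : 0 < b := by
    rw [hb]
    positivity
  have hbK : K * b = c / (4 * E5) := by
    rw [hb]
    field_simp
  have hϱ₀ : 0 < min 1 (b ^ 40) := lt_min one_pos (by positivity)
  refine ⟨e₀, c / (2 * E5), min 1 (b ^ 40), he1, h30, h16, by positivity, hϱ₀, min_le_left _ _, ?_⟩
  intro ϱ hϱ hϱle
  have hϱ1 : ϱ ≤ 1 := hϱle.trans (min_le_left _ _)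
  have hϱb : ϱ ^ (1 / 40 : ℝ) ≤ b := by
    have h1 : ϱ ^ (1 / 40 : ℝ) ≤ (b ^ 40) ^ (1 / 40 : ℝ) :=
      Real.rpow_le_rpow hϱ.le (hϱle.trans (min_le_right _ _)) (by norm_num)
    have h2 : (b ^ 40) ^ (1 / 40 : ℝ) = b := by
      have h3 := Real.pow_rpow_inv_natCast hbp.le (by norm_num : (40 : ℕ) ≠ 0)
      have h4 : ((40 : ℕ) : ℝ)⁻¹ = (1 / 40 : ℝ) := by norm_num
      rwa [h4] at h3
    rwa [h2] at h1
  obtain ⟨X, hX⟩ : ∃ X : ℝ, X = ϱ ^ (-(11 / 10 : ℝ)) := ⟨_, rfl⟩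
  obtain ⟨hX1, hXϱ, hp32, hpX⟩ := EGD_pow hϱ hϱ1 hX
  have hX0 : 0 < X := by linarith
  refine ⟨max Na (max Nb (max Nc (max 1 (max ((1 / ϱ) ^ 2) (max (X ^ (1 / η₁)) (X ^ (1 / η₂))))))), fun N hN => ?_⟩
  simp only [max_le_iff] at hN
  obtain ⟨hNa, hNb, hNc, hN1, hNϱ, hNη₁, hNη₂⟩ := hN
  have hN0 : 0 < N := by linarith
  have hpow : ∀ η : ℝ, 0 < η → X ^ (1 / η) ≤ N → X ≤ N ^ η := by
    intro η hη h
    have h1 := Real.rpow_le_rpow (Real.rpow_nonneg hX0.le _) h hη.le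
    rwa [← Real.rpow_mul hX0.le, one_div, inv_mul_cancel₀ hη.ne', Real.rpow_one] at h1
  have hXη₁ := hpow η₁ hη₁ hNη₁
  have hXη₂ := hpow η₂ hη₂ hNη₂
  have hRg₁ : Rg η₁ N (ϱ * √N) (√N) := EGD_rg hϱ hϱ1 hN1 (hXϱ.trans hXη₁)
  have hRg₂ : Rg η₂ N (ϱ * √N) (√N) := EGD_rg hϱ hϱ1 hN1 (hXϱ.trans hXη₂)
  have hss : √N * √N = N := Real.mul_self_sqrt hN0.le
  have hYY : ϱ * √N * √N = ϱ * N := by rw [mul_assoc, hss]
  have hYN : ϱ * √N * √N / N = ϱ := by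
    rw [hYY]
    field_simp
  have hY1 : 1 ≤ √N := by
    rw [Real.one_le_sqrt]
    exact hN1
  have hY2 : 1 ≤ ϱ * √N := by
    have h1 : 1 / ϱ ≤ √N := Real.le_sqrt_of_sq_le hNϱ
    rw [div_le_iff₀ hϱ] at h1
    linarith
  -- the sets
  obtain ⟨F₀, hF₀⟩ : ∃ F₀ : Finset Tpl, ∀ t, t ∈ F₀ ↔ BX N (ϱ * √N) (√N) t ∧ CC e₀ t := by
    refine ⟨(EGD_fin N (ϱ * √N) (√N)).toFinset.filter (fun t => CC e₀ t), fun t => ?_⟩
    rw [mem_filter, Set.Finite.mem_toFinset]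
    rfl
  obtain ⟨P, hP⟩ : ∃ P : Finset ℕ, P = (range (⌊X⌋₊ + 1)).filter Nat.Prime := ⟨_, rfl⟩
  have hPm : ∀ p, p ∈ P ↔ p.Prime ∧ (p : ℝ) ≤ X := by
    intro p
    rw [hP, mem_filter, mem_range, Nat.lt_succ_iff]
    constructor
    · rintro ⟨h1, h2⟩
      exact ⟨h2, (Nat.le_floor_iff hX0.le).1 h1⟩
    · rintro ⟨h1, h2⟩
      exact ⟨(Nat.le_floor_iff hX0.le).2 h2, h1⟩
  have hPX : (P.card : ℝ) ≤ X := by
    have h1 : P ⊆ Icc 1 ⌊X⌋₊ := by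
      intro p hp
      have h2 := (hPm p).1 hp
      rw [mem_Icc]
      exact ⟨h2.1.one_lt.le, Nat.le_floor h2.2⟩
    have h2 := card_le_card h1
    rw [Nat.card_Icc, Nat.add_sub_cancel] at h2
    have h3 : (P.card : ℝ) ≤ (⌊X⌋₊ : ℝ) := by exact_mod_cast h2
    exact h3.trans (Nat.floor_le hX0.le)
  obtain ⟨F, hF⟩ : ∃ F : Finset Tpl, F = F₀.filter (fun t => ∀ p ∈ P, ¬ BadP p t) := ⟨_, rfl⟩
  have hcard : (F₀.card : ℝ) ≤ F.card + ∑ p ∈ P, ((F₀.filter (fun t => BadP p t)).card : ℝ) := by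
    have h1 : F₀ ⊆ F ∪ P.biUnion (fun p => F₀.filter (fun t => BadP p t)) := by
      intro t ht
      by_cases h2 : ∀ p ∈ P, ¬ BadP p t
      · rw [mem_union, hF, mem_filter]
        exact Or.inl ⟨ht, h2⟩
      · push Not at h2
        obtain ⟨p, hp, hpt⟩ := h2
        rw [mem_union, mem_biUnion]
        exact Or.inr ⟨p, hp, mem_filter.2 ⟨ht, hpt⟩⟩
    have h2 := (card_le_card h1).trans ((card_union_le _ _).trans (Nat.add_le_add_left card_biUnion_le _))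
    have h3 : (F₀.card : ℝ) ≤ ((F.card + ∑ p ∈ P, (F₀.filter (fun t => BadP p t)).card : ℕ) : ℝ) := by
      exact_mod_cast h2
    push_cast at h3
    exact h3
  have hLow := hLa N (ϱ * √N) (√N) hNa hRg₁ F₀ (fun t h1 h2 => (hF₀ t).2 ⟨h1, h2⟩)
  rw [hYN, hYY, ← hE5] at hLow
  have hS0 : 0 ≤ ϱ * N := by positivity
  have h32 : 0 ≤ ϱ ^ (3 / 2 : ℝ) := Real.rpow_nonneg hϱ.le _
  have hX4 : 0 ≤ X ^ (1 / 4 : ℝ) := Real.rpow_nonneg hX0.le _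
  have hsum := EGD_sum P (fun p => ((F₀.filter (fun t => BadP p t)).card : ℝ)) w₀ w (ϱ * N) (C₀ / E5) C₀
    (Cb * ϱ ^ (3 / 2 : ℝ) * (2 * (w : ℝ) ^ 2)) (Cc * (ϱ ^ (3 / 2 : ℝ) * X ^ (1 / 4 : ℝ) * (1 + X * ϱ))) X
    (by omega) hw1 hS0 (by positivity) (by positivity) (by positivity) (by positivity) hPX
    (fun p hp => ((hPm p).1 hp).1.one_lt.le)
    (by
      intro p hp hpw
      have h1 : F₀.filter (fun t => BadP p t) = ∅ := by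
        rw [filter_eq_empty_iff]
        intro t ht
        exact EGD_bad ((hF₀ t).1 ht).2 ((hPm p).1 hp).1 (hedvd p ((hPm p).1 hp).1 hpw)
      rw [h1, card_empty, Nat.cast_zero])
    (by
      intro p hp h1 h2
      have hpp := ((hPm p).1 hp).1
      have hpX' := ((hPm p).1 hp).2
      have h3 := hTb N (ϱ * √N) (√N) hNb hRg₂ p hpp (hendvd p hpp h1) (hpX'.trans hXη₂)
        (F₀.filter (fun t => BadP p t)) (by
          intro t ht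
          rw [mem_filter] at ht
          have h4 := (hF₀ t).1 ht.1
          exact ⟨(hEBX N (ϱ * √N) (√N) t hN1 hY2 hY1 h4.1).1, h4.2, ht.2⟩)
      rw [hYN, hYY, ← hE5] at h3
      refine h3.trans (mul_le_mul_of_nonneg_right ?_ hS0)
      have hp1 : (1 : ℝ) ≤ (p : ℝ) := by exact_mod_cast hpp.one_lt.le
      have hpw : (p : ℝ) ≤ (w : ℝ) := by exact_mod_cast h2
      have e1 : (p : ℝ) ^ (1 / 4 : ℝ) ≤ (w : ℝ) := by
        have e2 : (p : ℝ) ^ (1 / 4 : ℝ) ≤ (p : ℝ) ^ (1 : ℝ) :=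
          Real.rpow_le_rpow_of_exponent_le hp1 (by norm_num)
        rw [Real.rpow_one] at e2
        exact e2.trans hpw
      have e2 : 1 + (p : ℝ) * ϱ ≤ 2 * w := by
        have e3 : (p : ℝ) * ϱ ≤ p := by nlinarith
        linarith
      have e3 : 0 ≤ (p : ℝ) ^ (1 / 4 : ℝ) := Real.rpow_nonneg (by linarith) _
      have e4 : (p : ℝ) ^ (1 / 4 : ℝ) * (1 + (p : ℝ) * ϱ) ≤ w * (2 * w) :=
        mul_le_mul e1 e2 (by positivity) (by positivity)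
      have e5 : C₀ / ((p : ℝ) ^ 2 * E5) = C₀ / E5 * (1 / (p : ℝ) ^ 2) := by
        field_simp
      rw [e5]
      have e6 : Cb * ϱ ^ (3 / 2 : ℝ) * (p : ℝ) ^ (1 / 4 : ℝ) * (1 + p * ϱ) ≤
          Cb * ϱ ^ (3 / 2 : ℝ) * (2 * (w : ℝ) ^ 2) := by
        have e7 := mul_le_mul_of_nonneg_left e4 (by positivity : 0 ≤ Cb * ϱ ^ (3 / 2 : ℝ))
        calc Cb * ϱ ^ (3 / 2 : ℝ) * (p : ℝ) ^ (1 / 4 : ℝ) * (1 + p * ϱ)
            = Cb * ϱ ^ (3 / 2 : ℝ) * ((p : ℝ) ^ (1 / 4 : ℝ) * (1 + p * ϱ)) := by ring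
          _ ≤ Cb * ϱ ^ (3 / 2 : ℝ) * (w * (2 * w)) := e7
          _ = Cb * ϱ ^ (3 / 2 : ℝ) * (2 * (w : ℝ) ^ 2) := by ring
      linarith)
    (by
      intro p hp h1 h2
      have hpp := ((hPm p).1 hp).1
      have hpX' := ((hPm p).1 hp).2
      have h3 := hTc N (ϱ * √N) (√N) hNc hRg₂ p hpp (by
          intro h4
          exact hpp.one_lt.ne' (Nat.dvd_one.1 h4)) (hpX'.trans hXη₂)
        (F₀.filter (fun t => BadP p t)) (by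
          intro t ht
          rw [mem_filter] at ht
          have h4 := (hF₀ t).1 ht.1
          refine ⟨(hEBX N (ϱ * √N) (√N) t hN1 hY2 hY1 h4.1).1, ⟨?_, ?_, ?_, ?_, ?_⟩, ht.2⟩ <;>
            exact one_dvd _)
      rw [hYN, hYY] at h3
      refine h3.trans (mul_le_mul_of_nonneg_right ?_ hS0)
      have hp0 : (0 : ℝ) ≤ (p : ℝ) := Nat.cast_nonneg p
      have e1 : (p : ℝ) ^ (1 / 4 : ℝ) ≤ X ^ (1 / 4 : ℝ) := Real.rpow_le_rpow hp0 hpX' (by norm_num)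
      have e2 : 1 + (p : ℝ) * ϱ ≤ 1 + X * ϱ := by
        have e3 := mul_le_mul_of_nonneg_right hpX' hϱ.le
        linarith
      have e4 : (p : ℝ) ^ (1 / 4 : ℝ) * (1 + (p : ℝ) * ϱ) ≤ X ^ (1 / 4 : ℝ) * (1 + X * ϱ) :=
        mul_le_mul e1 e2 (by positivity) (by positivity)
      have e5 : C₀ / ((p : ℝ) ^ 2 * ((1 : ℕ) : ℝ) ^ 5) = C₀ * (1 / (p : ℝ) ^ 2) := by
        rw [Nat.cast_one, one_pow, mul_one, mul_one_div]
      rw [e5]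
      have e6 : Cc * ϱ ^ (3 / 2 : ℝ) * (p : ℝ) ^ (1 / 4 : ℝ) * (1 + p * ϱ) ≤
          Cc * (ϱ ^ (3 / 2 : ℝ) * X ^ (1 / 4 : ℝ) * (1 + X * ϱ)) := by
        have e7 := mul_le_mul_of_nonneg_left e4 (by positivity : 0 ≤ Cc * ϱ ^ (3 / 2 : ℝ))
        calc Cc * ϱ ^ (3 / 2 : ℝ) * (p : ℝ) ^ (1 / 4 : ℝ) * (1 + p * ϱ)
            = Cc * ϱ ^ (3 / 2 : ℝ) * ((p : ℝ) ^ (1 / 4 : ℝ) * (1 + p * ϱ)) := by ring
          _ ≤ Cc * ϱ ^ (3 / 2 : ℝ) * (X ^ (1 / 4 : ℝ) * (1 + X * ϱ)) := e7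
          _ = Cc * (ϱ ^ (3 / 2 : ℝ) * X ^ (1 / 4 : ℝ) * (1 + X * ϱ)) := by ring
      linarith)
  refine ⟨F, ?_, ?_⟩
  · intro t ht
    rw [hF, mem_filter] at ht
    refine ⟨((hF₀ t).1 ht.1).1, ((hF₀ t).1 ht.1).2, fun p hp hpX' => ht.2 p ((hPm p).2 ⟨hp, ?_⟩)⟩
    rw [hX]
    exact hpX'
  · -- the final inequality
    have q1 : C₀ / E5 / w₀ ≤ c / (8 * E5) := by
      rw [div_le_iff₀ hc] at hw₀c
      rw [div_div, div_le_div_iff₀ (by positivity) (by positivity)]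
      have h1 := mul_le_mul_of_nonneg_right hw₀c hE5p.le
      nlinarith
    have q2 : C₀ / w ≤ c / (8 * E5) := by
      rw [div_le_iff₀ hc, ← hE5] at hw
      rw [div_le_div_iff₀ (by positivity) (by positivity)]
      nlinarith
    have q3 : X * (Cc * (ϱ ^ (3 / 2 : ℝ) * X ^ (1 / 4 : ℝ) * (1 + X * ϱ))) ≤ 2 * Cc * ϱ ^ (1 / 40 : ℝ) := by
      have h1 := mul_le_mul_of_nonneg_left hpX (by positivity : 0 ≤ Cc)
      calc X * (Cc * (ϱ ^ (3 / 2 : ℝ) * X ^ (1 / 4 : ℝ) * (1 + X * ϱ)))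
          = Cc * (X * (ϱ ^ (3 / 2 : ℝ) * X ^ (1 / 4 : ℝ) * (1 + X * ϱ))) := by ring
        _ ≤ Cc * (2 * ϱ ^ (1 / 40 : ℝ)) := h1
        _ = 2 * Cc * ϱ ^ (1 / 40 : ℝ) := by ring
    have q4 : w * (Cb * ϱ ^ (3 / 2 : ℝ) * (2 * (w : ℝ) ^ 2)) ≤ 2 * Cb * (w : ℝ) ^ 3 * ϱ ^ (1 / 40 : ℝ) := by
      have h1 := mul_le_mul_of_nonneg_left hp32 (by positivity : 0 ≤ 2 * Cb * (w : ℝ) ^ 3)
      calc w * (Cb * ϱ ^ (3 / 2 : ℝ) * (2 * (w : ℝ) ^ 2)) = 2 * Cb * (w : ℝ) ^ 3 * ϱ ^ (3 / 2 : ℝ) := by ring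
        _ ≤ _ := h1
    have q5 : Ca * ϱ ^ (3 / 2 : ℝ) ≤ Ca * ϱ ^ (1 / 40 : ℝ) :=
      mul_le_mul_of_nonneg_left hp32 (by positivity)
    have q6 : K * ϱ ^ (1 / 40 : ℝ) ≤ c / (4 * E5) := by
      rw [← hbK]
      exact mul_le_mul_of_nonneg_left hϱb hKp.le
    rw [hK] at q6
    have q7 : c / (2 * E5) + (Ca * ϱ ^ (3 / 2 : ℝ) + (C₀ / E5 / w₀ + C₀ / w + w * (Cb * ϱ ^ (3 / 2 : ℝ) * (2 * (w : ℝ) ^ 2)) +
        X * (Cc * (ϱ ^ (3 / 2 : ℝ) * X ^ (1 / 4 : ℝ) * (1 + X * ϱ))))) ≤ c / E5 := by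
      have r1 : c / (2 * E5) = 4 * (c / (8 * E5)) := by
        field_simp
        norm_num
      have r2 : c / (4 * E5) = 2 * (c / (8 * E5)) := by
        field_simp
        norm_num
      have r3 : c / E5 = 8 * (c / (8 * E5)) := by
        field_simp
      rw [r1, r3]
      rw [r2] at q6
      linarith
    have q8 := mul_le_mul_of_nonneg_right q7 hS0
    nlinarith

end Pool.Agent.T6
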