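import Pool.Agent.helper82.T6.SpecL

set_option autoImplicit false

/-! Row NBD of project T6: the number of nonzero lattice vectors in a box. -/

namespace Pool.Agent.T6

open Finset Pool.Agent.helper3.FT

/-- the coordinates of a vector -/
def NBD_e (v : V4) : Fin 4 → ℤ := ![v.1, v.2.1, v.2.2.1, v.2.2.2]

theorem NBD_e_inj : Function.Injective NBD_e := by
  intro v w h
  have h0 : v.1 = w.1 := congrFun h 0
  have h1 : v.2.1 = w.2.1 := congrFun h 1
  have h2 : v.2.2.1 = w.2.2.1 := congrFun h 2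
  have h3 : v.2.2.2 = w.2.2.2 := congrFun h 3
  exact Prod.ext h0 (Prod.ext h1 (Prod.ext h2 h3))

/-- the sides of the box -/
noncomputable def NBD_S (b : ℝ) : Fin 4 → ℝ := ![b ^ 5, b, b⁻¹, (b ^ 5)⁻¹]

theorem NBD_all {Q : Fin 4 → Prop} (h0 : Q 0) (h1 : Q 1) (h2 : Q 2) (h3 : Q 3) : ∀ k, Q k := by
  intro k
  fin_cases k
  · exact h0
  · exact h1
  · exact h2
  · exact h3

theorem NBD_S_pos {b : ℝ} (hb : 1 ≤ b) : ∀ k, 0 < NBD_S b k := by
  have h : 0 < b := by linarith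
  refine NBD_all ?_ ?_ ?_ ?_
  · show 0 < b ^ 5
    positivity
  · exact h
  · show 0 < b⁻¹
    positivity
  · show 0 < (b ^ 5)⁻¹
    positivity

theorem NBD_le {b V : ℝ} (hb : 1 ≤ b) {v : V4} (h : nrm b v ≤ V) :
    ∀ k, |(NBD_e v k : ℝ)| ≤ V * NBD_S b k := by
  have hb0 : 0 < b := by linarith
  unfold nrm at h
  rw [max_le_iff, max_le_iff, max_le_iff] at h
  obtain ⟨⟨h0, h1⟩, h2, h3⟩ := h
  refine NBD_all ?_ ?_ ?_ ?_
  · show |(v.1 : ℝ)| ≤ V * b ^ 5
    rwa [div_le_iff₀ (by positivity)] at h0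
  · show |(v.2.1 : ℝ)| ≤ V * b
    rwa [div_le_iff₀ hb0] at h1
  · show |(v.2.2.1 : ℝ)| ≤ V * b⁻¹
    rw [← div_eq_mul_inv, le_div_iff₀ hb0]
    exact h2
  · show |(v.2.2.2 : ℝ)| ≤ V * (b ^ 5)⁻¹
    rw [← div_eq_mul_inv, le_div_iff₀ (by positivity)]
    exact h3

theorem NBD_ge {b l : ℝ} (hb : 1 ≤ b) {v : V4} (h : l ≤ nrm b v) :
    ∃ k, l * NBD_S b k ≤ |(NBD_e v k : ℝ)| := by
  have hb0 : 0 < b := by linarith
  unfold nrm at h
  rw [le_max_iff, le_max_iff, le_max_iff] at h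
  rcases h with (h | h) | (h | h)
  · refine ⟨0, ?_⟩
    show l * b ^ 5 ≤ |(v.1 : ℝ)|
    rwa [le_div_iff₀ (by positivity)] at h
  · refine ⟨1, ?_⟩
    show l * b ≤ |(v.2.1 : ℝ)|
    rwa [le_div_iff₀ hb0] at h
  · refine ⟨2, ?_⟩
    show l * b⁻¹ ≤ |(v.2.2.1 : ℝ)|
    rw [← div_eq_mul_inv, div_le_iff₀ hb0]
    exact h
  · refine ⟨3, ?_⟩
    show l * (b ^ 5)⁻¹ ≤ |(v.2.2.2 : ℝ)|
    rw [← div_eq_mul_inv, div_le_iff₀ (by positivity)]
    exact h

/-- the two congruences -/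
def NBD_phi (d r : ℕ) : (Fin 4 → ℤ) →+ ZMod d × ZMod d where
  toFun v := (((5 * v 0 * r ^ 3 - 2 * v 1 * r + v 2 : ℤ) : ZMod d),
    ((v 1 * r ^ 3 + 2 * v 2 * r ^ 2 - 5 * v 3 : ℤ) : ZMod d))
  map_zero' := by simp
  map_add' v w := by
    refine Prod.ext ?_ ?_
    · simp only [Pi.add_apply, Prod.mk_add_mk]
      push_cast
      ring
    · simp only [Pi.add_apply, Prod.mk_add_mk]
      push_cast
      ring

theorem NBD_phi_zero (d r : ℕ) (v : V4) : NBD_phi d r (NBD_e v) = 0 ↔ InG d r v := by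
  unfold InG
  have h1 : F1 v.1 v.2.1 v.2.2.1 r 1 = 5 * NBD_e v 0 * r ^ 3 - 2 * NBD_e v 1 * r + NBD_e v 2 := by
    show F1 v.1 v.2.1 v.2.2.1 r 1 = 5 * v.1 * r ^ 3 - 2 * v.2.1 * r + v.2.2.1
    unfold F1
    ring
  have h2 : F2 v.2.1 v.2.2.1 v.2.2.2 r 1 =
      NBD_e v 1 * r ^ 3 + 2 * NBD_e v 2 * r ^ 2 - 5 * NBD_e v 3 := by
    show F2 v.2.1 v.2.2.1 v.2.2.2 r 1 = v.2.1 * r ^ 3 + 2 * v.2.2.1 * r ^ 2 - 5 * v.2.2.2
    unfold F2
    ring
  rw [h1, h2]
  have h3 : NBD_phi d r (NBD_e v) =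
    (((5 * NBD_e v 0 * r ^ 3 - 2 * NBD_e v 1 * r + NBD_e v 2 : ℤ) : ZMod d),
      ((NBD_e v 1 * r ^ 3 + 2 * NBD_e v 2 * r ^ 2 - 5 * NBD_e v 3 : ℤ) : ZMod d)) := rfl
  rw [h3, Prod.mk_eq_zero, ZMod.intCast_zmod_eq_zero_iff_dvd, ZMod.intCast_zmod_eq_zero_iff_dvd]

theorem NBD_phi_surj {d r : ℕ} (hd : 1 ≤ d) (h5 : Nat.Coprime d 5) :
    Function.Surjective (NBD_phi d r) := by
  have : NeZero d := ⟨by omega⟩
  rintro ⟨α, β⟩
  obtain ⟨B, hB⟩ := ZMod.intCast_surjective α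
  have hu : IsUnit (5 : ZMod d) := by
    have h6 : IsUnit ((5 : ℕ) : ZMod d) := (ZMod.isUnit_iff_coprime 5 d).2 h5.symm
    exact_mod_cast h6
  obtain ⟨u, hu⟩ := hu
  obtain ⟨X, hX⟩ := ZMod.intCast_surjective ((↑u⁻¹ : ZMod d) * (2 * α * (r : ZMod d) ^ 2 - β))
  refine ⟨![0, 0, B, X], ?_⟩
  refine Prod.ext ?_ ?_
  · show (((5 * 0 * r ^ 3 - 2 * 0 * r + B : ℤ) : ZMod d)) = α
    push_cast
    rw [hB]
    ring
  · show ((0 * r ^ 3 + 2 * B * r ^ 2 - 5 * X : ℤ) : ZMod d) = β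
    push_cast
    rw [hB, hX, ← hu]
    rw [Units.mul_inv_cancel_left]
    ring

theorem NBD (hGP : GP_stmt) (hGR : GR_stmt) (hN1 : N1_stmt) (hN2 : N2_stmt) (hN4 : N4_stmt) :
    NBD_stmt := by
  classical
  intro b V d r F hb hd h5 hF
  have hb0 : 0 < b := by linarith
  have hd0 : (0 : ℝ) < d := by exact_mod_cast hd
  rcases F.eq_empty_or_nonempty with hE | ⟨v₀, hv₀⟩
  · left
    rw [hE, card_empty]
    push_cast
    positivity
  have hlV : lamb b d r ≤ V :=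
    ((hN4 b d r hb hd).2 v₀ (hF v₀ hv₀).1 (hF v₀ hv₀).2.1).trans (hF v₀ hv₀).2.2
  have hl0 : 0 < lamb b d r := by
    obtain ⟨v, hv, -, hv'⟩ := (hN4 b d r hb hd).1
    rw [← hv']
    have h1 := (hN1 b hb v v).2.2.2.2.1 hv
    exact lt_of_lt_of_le (by positivity) h1
  have hV0 : 0 < V := hl0.trans_le hlV
  by_cases hind : ∃ w : Fin 4 → V4, (∀ i, w i ∈ F) ∧ LinearIndependent ℤ (fun i => NBD_e (w i))
  · left
    obtain ⟨w, hw, hli⟩ := hind
    have : NeZero d := ⟨by omega⟩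
    have h1 := hGP (ZMod d × ZMod d) (NBD_phi d r) (NBD_phi_surj hd h5) (fun k => V * NBD_S b k)
      (fun i => NBD_e (w i)) hli (fun i => ⟨(NBD_phi_zero d r (w i)).2 (hF _ (hw i)).2.1,
        NBD_le hb (hF _ (hw i)).2.2⟩) (F.image NBD_e) (fun v hv => by
          obtain ⟨u, hu, rfl⟩ := mem_image.1 hv
          exact ⟨(NBD_phi_zero d r u).2 (hF u hu).2.1, NBD_le hb (hF u hu).2.2⟩)
    rw [card_image_of_injective _ NBD_e_inj, Fintype.card_prod, ZMod.card] at h1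
    have h2 : ∏ k, (11 * (V * NBD_S b k)) = 14641 * V ^ 4 := by
      rw [Fin.prod_univ_four]
      show 11 * (V * b ^ 5) * (11 * (V * b)) * (11 * (V * b⁻¹)) * (11 * (V * (b ^ 5)⁻¹)) = _
      field_simp
      norm_num
    rw [h2] at h1
    rw [le_div_iff₀ (by positivity)]
    push_cast at h1
    linarith
  · right
    refine ⟨hlV, ?_⟩
    have h1 := hGR (NBD_S b) V (lamb b d r) (insert 0 (F.image NBD_e)) (NBD_S_pos hb) hl0 hV0.le
      (fun v hv k => by
        rcases mem_insert.1 hv with rfl | hv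
        · have := NBD_S_pos hb k
          simp only [Pi.zero_apply, Int.cast_zero, abs_zero]
          positivity
        · obtain ⟨u, hu, rfl⟩ := mem_image.1 hv
          exact NBD_le hb (hF u hu).2.2 k) ?_ ?_
    · have h2 : (F.card : ℝ) ≤ ((insert 0 (F.image NBD_e)).card : ℝ) := by
        rw [← card_image_of_injective F NBD_e_inj]
        exact_mod_cast card_le_card (subset_insert _ _)
      have h3 : 1 ≤ V / lamb b d r := by rwa [le_div_iff₀ hl0, one_mul]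
      have h4 : 1 + 6 * V / lamb b d r ≤ 7 * (V / lamb b d r) := by
        rw [mul_div_assoc]
        linarith
      calc (F.card : ℝ) ≤ _ := h2
        _ ≤ (1 + 6 * V / lamb b d r) ^ 3 := h1
        _ ≤ (7 * (V / lamb b d r)) ^ 3 := by
          have : 0 ≤ 6 * V / lamb b d r := by positivity
          exact pow_le_pow_left₀ (by linarith) h4 3
        _ = 343 * (V / lamb b d r) ^ 3 := by ring
    · -- separation
      have hrep : ∀ v ∈ insert 0 (F.image NBD_e), ∃ u : V4, InG d r u ∧ NBD_e u = v := by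
        intro v hv
        rcases mem_insert.1 hv with rfl | hv
        · refine ⟨0, hN2.1 d r, ?_⟩
          funext k
          revert k
          exact NBD_all rfl rfl rfl rfl
        · obtain ⟨u, hu, rfl⟩ := mem_image.1 hv
          exact ⟨u, (hF u hu).2.1, rfl⟩
      intro v hv v' hv' hne
      obtain ⟨u, hu, rfl⟩ := hrep v hv
      obtain ⟨u', hu', rfl⟩ := hrep v' hv'
      have h2 : InG d r (u + -u') := (hN2.2.1 d r u (-u') hu (hN2.2.1 d r u' u' hu' hu').2).1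
      have h3 : u + -u' ≠ 0 := by
        intro h
        apply hne
        have : u = u' := by
          have := add_neg_eq_zero.1 h
          exact this
        rw [this]
      obtain ⟨k, hk⟩ := NBD_ge hb ((hN4 b d r hb hd).2 _ h3 h2)
      refine ⟨k, hk.trans (le_of_eq ?_)⟩
      have h4 : ∀ k, NBD_e (u + -u') k = NBD_e u k - NBD_e u' k := by
        refine NBD_all ?_ ?_ ?_ ?_
        · show u.1 + -u'.1 = u.1 - u'.1
          ring
        · show u.2.1 + -u'.2.1 = u.2.1 - u'.2.1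
          ring
        · show u.2.2.1 + -u'.2.2.1 = u.2.2.1 - u'.2.2.1
          ring
        · show u.2.2.2 + -u'.2.2.2 = u.2.2.2 - u'.2.2.2
          ring
      rw [h4 k]
    · -- rank
      intro w hw hli
      apply hind
      have h2 : ∀ i, ∃ u ∈ F, NBD_e u = w i := by
        intro i
        rcases mem_insert.1 (hw i) with h | h
        · exact absurd h (hli.ne_zero i)
        · obtain ⟨u, hu, h'⟩ := mem_image.1 h
          exact ⟨u, hu, h'⟩
      choose u hu hu' using h2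
      refine ⟨u, hu, ?_⟩
      have h3 : (fun i => NBD_e (u i)) = w := funext hu'
      rw [h3]
      exact hli

end Pool.Agent.T6
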